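import Pool.Agent.W529.ST.Conv

/-!
# Sato-Tate for the quadratic twists of the Jacobian of a curve of genus two

`F` is a number field and `f ∈ 𝓞_F[x]` is separable of degree `5` or `6`; the curves `y² = f(x)` are all
the curves of genus two over `F`.  `A` is the Jacobian and `A_d`, `d ∈ 𝓞_F` nonzero, the Jacobian of
`d y² = f(x)`, the quadratic twist of `A` by `F(√d)/F`.  The class `s(v)` in `USp(4)` of the Frobenius
at `v` is given by the normalised traces `(Tr(Frob_v) / N(v)^{1/2}, Tr(Frob_v²) / N(v))`.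
-/

set_option autoImplicit false

namespace Pool.Agent.Results.MP_6dc561_nt.MostTwists

open NumberField IsDedekindDomain Filter Topology Polynomial

/-- Number of affine points of `d y² = f(x)` with coordinates in the extension of degree `m` of the
finite field `k`, that is, the field of the elements of the algebraic closure of `k` that are fixed
by the `m`-th power of the Frobenius of `k`. -/
noncomputable def affineCount (k : Type) [Field k] (f : k[X]) (d : k) (m : ℕ) : ℕ :=
  Nat.card {P : AlgebraicClosure k × AlgebraicClosure k //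
    P.1 ^ (Nat.card k ^ m) = P.1 ∧ P.2 ^ (Nat.card k ^ m) = P.2 ∧
    algebraMap k (AlgebraicClosure k) d * P.2 ^ 2 = aeval P.1 f}

/-- Number of points at infinity of the smooth projective model of `d y² = f(x)` over the extension
of degree `m`: one if `deg f` is odd; if `deg f = 2g + 2` is even and `c` is the leading coefficient,
the points `z` of `d z² = c`, `z = y / x^{g+1}`. -/
noncomputable def infinityCount (k : Type) [Field k] (f : k[X]) (d : k) (m : ℕ) : ℕ :=
  if Odd f.natDegree then 1 else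
    Nat.card {z : AlgebraicClosure k // z ^ (Nat.card k ^ m) = z ∧
      algebraMap k (AlgebraicClosure k) d * z ^ 2 = algebraMap k (AlgebraicClosure k) f.leadingCoeff}

/-- Trace of the `m`-th power of the Frobenius at `v` on `H¹` of the smooth projective curve
`d y² = f(x)`: it is `q^m + 1` minus the number of points over the field with `q^m` elements. -/
noncomputable def traceH1 {F : Type} [Field F] [NumberField F] (v : HeightOneSpectrum (𝓞 F))
    (f : (𝓞 F)[X]) (d : 𝓞 F) (m : ℕ) : ℤ :=
  haveI : v.asIdeal.IsMaximal := v.isMaximal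
  letI : Field (𝓞 F ⧸ v.asIdeal) := Ideal.Quotient.field v.asIdeal
  (Nat.card (𝓞 F ⧸ v.asIdeal) : ℤ) ^ m + 1 -
    (affineCount (𝓞 F ⧸ v.asIdeal) (f.map (Ideal.Quotient.mk v.asIdeal))
      (Ideal.Quotient.mk v.asIdeal d) m +
    infinityCount (𝓞 F ⧸ v.asIdeal) (f.map (Ideal.Quotient.mk v.asIdeal))
      (Ideal.Quotient.mk v.asIdeal d) m)

/-- The class `s(v)` of `A_d`: the normalised traces `Tr(Frob_v^m) / N(v)^{m/2}`, `m = 1, 2`. -/
noncomputable def frobClass {F : Type} [Field F] [NumberField F] (f : (𝓞 F)[X]) (d : 𝓞 F)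
    (v : HeightOneSpectrum (𝓞 F)) (m : Fin 2) : ℝ :=
  (traceH1 v f d (m + 1) : ℝ) / ((Ideal.absNorm v.asIdeal : ℕ) : ℝ) ^ (((m : ℕ) + 1 : ℝ) / 2)

/-- The class of `-x`, if `s` is the class of `x ∈ USp(4)`. -/
def neg (s : Fin 2 → ℝ) (m : Fin 2) : ℝ := (-1) ^ ((m : ℕ) + 1) * s m

/-- Mean of `φ` over the primes of `F` of norm at most `N`. -/
noncomputable def mean {F : Type} [Field F] [NumberField F] (φ : HeightOneSpectrum (𝓞 F) → ℝ)
    (N : ℕ) : ℝ :=
  (∑ᶠ v : {v : HeightOneSpectrum (𝓞 F) // Ideal.absNorm v.asIdeal ≤ N}, φ v.1) /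
    (Nat.card {v : HeightOneSpectrum (𝓞 F) // Ideal.absNorm v.asIdeal ≤ N} : ℝ)

/-- Test functions on the space of classes: values in `[-1, 1]`, Lipschitz constant `1` for the
maximum norm. -/
def Test (Φ : (Fin 2 → ℝ) → ℝ) : Prop := LipschitzWith 1 Φ ∧ ∀ s, |Φ s| ≤ 1

/-- The twist `A_d` is exceptional at the scale `N`, for the precision `1/k`: for some test function
`Φ` the mean over the classes of `A_d` differs by at least `1/k` from the mean of `(Φ(s) + Φ(-s))/2`
over the classes `s` of `A`. -/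
def Exceptional {F : Type} [Field F] [NumberField F] (f : (𝓞 F)[X]) (k N : ℕ) (d : 𝓞 F) : Prop :=
  ∃ Φ : (Fin 2 → ℝ) → ℝ, Test Φ ∧ 1 / (k : ℝ) ≤
    |mean (fun v => Φ (frobClass f d v)) N -
      mean (fun v => (Φ (frobClass f 1 v) + Φ (neg (frobClass f 1 v))) / 2) N|

/-- `A_d` deviates at the scale `N` by at least `1/k` from the Sato-Tate law with integral `I`. -/
def Deviates {F : Type} [Field F] [NumberField F] (f : (𝓞 F)[X]) (I : ((Fin 2 → ℝ) → ℝ) → ℝ)
    (k N : ℕ) (d : 𝓞 F) : Prop :=
  ∃ Φ : (Fin 2 → ℝ) → ℝ, Test Φ ∧ 1 / (k : ℝ) ≤ |mean (fun v => Φ (frobClass f d v)) N - I Φ|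

open Classical in
/-- **Sato-Tate for most quadratic twists.**  Let `F` be a number field, `f ∈ 𝓞_F[x]` separable of
degree `5` or `6`, `A` the Jacobian of `y² = f(x)`, `k ≥ 1`, and `T` a finite set of nonzero elements
of `𝓞_F` in different classes modulo squares of `F`.

1. At every large scale `N` at most `(10 k)^4` of the twists `A_d`, `d ∈ T`, are exceptional: for all
others the classes of `A_d` at the primes of norm at most `N` are distributed, up to `1/k`, like the
classes `± s(v)` of `A` with random signs.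

2. If the classes of `A` are equidistributed for a law, with integral `I`, that is invariant under
`x ↦ -x` (as the Haar measure is), then at every large scale `N` at most `(20 k)^4` of the twists
`A_d`, `d ∈ T`, deviate from this law by `1/k` or more. -/
theorem result (F : Type) [Field F] [NumberField F] (f : (𝓞 F)[X])
    (hf : (f.map (algebraMap (𝓞 F) F)).Separable) (hdeg : f.natDegree = 5 ∨ f.natDegree = 6)
    (T : Finset (𝓞 F)) (hT : ∀ d ∈ T, d ≠ 0)
    (hT' : ∀ d ∈ T, ∀ e ∈ T, d ≠ e → ¬ IsSquare ((d * e : 𝓞 F) : F)) (k : ℕ) (hk : 1 ≤ k) :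
    (∀ᶠ N : ℕ in atTop, (T.filter (Exceptional f k N)).card ≤ (10 * k) ^ 4) ∧
    ∀ I : ((Fin 2 → ℝ) → ℝ) → ℝ, (∀ Φ, Test Φ → I (fun s => Φ (neg s)) = I Φ) →
      (∀ Φ, Test Φ → Tendsto (mean fun v => Φ (frobClass f 1 v)) atTop (𝓝 (I Φ))) →
      ∀ᶠ N : ℕ in atTop, (T.filter (Deviates f I k N)).card ≤ (20 * k) ^ 4 := by
  have hn : 1 ≤ f.natDegree := by omega
  have hR : f.natDegree ≤ 6 := by omega
  have key : ∀ k : ℕ, 1 ≤ k → 16 * (4 * 6 * k + 1) ^ 2 * k ^ 2 ≤ (10 * k) ^ 4 := by
    intro k hk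
    have h1 : 4 * 6 * k + 1 ≤ 25 * k := by omega
    calc 16 * (4 * 6 * k + 1) ^ 2 * k ^ 2 ≤ 16 * (25 * k) ^ 2 * k ^ 2 :=
          Nat.mul_le_mul_right _ (Nat.mul_le_mul_left _ (Nat.pow_le_pow_left h1 2))
      _ = (10 * k) ^ 4 := by ring
  constructor
  · filter_upwards [Pool.Agent.W529.ST.count_curve f hf hn 2 6 hR T hT hT' k hk] with N hN
    exact hN.trans (key k hk)
  · intro I hI hlim
    filter_upwards [Pool.Agent.W529.ST.count_curve_I f hf hn 2 6 hR T hT hT' k hk I hI hlim]
      with N hN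
    have e1 : (20 * k) ^ 4 = (10 * (2 * k)) ^ 4 := by ring
    rw [e1]
    exact hN.trans (key (2 * k) (by omega))

end Pool.Agent.Results.MP_6dc561_nt.MostTwists
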